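import Pool.Agent.MP_c69980_ag.H43.Spec5

/-!
Valuations attached to transversal arcs, and derivations on unramified valuation rings.
-/

set_option autoImplicit false

namespace Pool.Agent.MP_c69980_ag.H43

open MvPolynomial H60 Finset Filter Topology Metric

theorem sArc : SArc := by
  intro n K _ _ U z ι u p F γ hU hz hp hγ
  by_contra hn
  push Not at hn
  have p1 : (1 : MvPolynomial ι ℂ) ∉ p := (Ideal.ne_top_iff_one p).1 hp.ne_top
  let I := {a : ℝ × (ℂ → Fin n → ℂ) × ℂ // Dk U 0 a.1 a.2.1 ∧ a.2.2 ∈ ball (0 : ℂ) a.1 ∧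
    od z a.2.1 a.2.2 (aeval u F) = 1 ∧ od z a.2.1 a.2.2 γ < 0 ∧ ∀ i, Reg z (a.2.1 a.2.2) (u i)}
  let T := {t : MvPolynomial ι ℂ × PR n × ℕ //
    t.1 ∉ p ∧ t.2.1.IsHomogeneous t.2.2 ∧ aeval z t.2.1 ≠ 0}
  let S : T → Set I := fun t =>
    {a | eval (a.1.2.1 0) t.1.2.1 ≠ 0 ∧ vl z (aeval u t.1.1) (a.1.2.1 a.1.2.2) ≠ 0}
  have r1 : ∀ (a : I) i, Reg z (a.1.2.1 a.1.2.2) (u i) := fun a => a.2.2.2.2.2
  have o1 : ∀ a : I, On z (a.1.2.1 a.1.2.2) := fun a => Cone.on hz (a.2.1.2 _ a.2.2.1)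
  have hS : ∀ t, (S t).Nonempty := fun t => by
    obtain ⟨R, x, ζ, a1, a2, a3, a7, a4, a5, a6⟩ := hn _ _ _ t.2.1 t.2.2.1 t.2.2.2
    exact ⟨⟨(R, x, ζ), a1, a2, a4, a6, a7⟩, a3, a5⟩
  let t0 : T := ⟨(1, 1, 0), p1, isHomogeneous_one _ _, by simp⟩
  have hne : Nonempty I := ⟨(hS t0).some⟩
  have hT0 : Nonempty T := ⟨t0⟩
  have : (⨅ t, 𝓟 (S t)).NeBot := iInf_neBot_of_directed (fun s t => by
    refine ⟨⟨(s.1.1 * t.1.1, s.1.2.1 * t.1.2.1, _),
      fun e => (hp.mem_or_mem e).elim s.2.1 t.2.1,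
      s.2.2.1.mul t.2.2.1, by simp [s.2.2.2, t.2.2.2]⟩, ?_, ?_⟩ <;>
    · refine principal_mono.2 fun a ha => ?_
      simp only [S, Set.mem_ofPred_eq, (vl_aeval (o1 a) (r1 a) _).2] at ha ⊢
      simp only [map_mul, ne_eq, mul_eq_zero, not_or] at ha
      tauto) fun t => principal_neBot_iff.2 (hS t)
  let 𝒰 := Ultrafilter.of (⨅ t, 𝓟 (S t))
  have hT : ∀ t, ∀ᶠ a in 𝒰, a ∈ S t := fun t =>
    Ultrafilter.of_le _ (mem_iInf_of_mem t (mem_principal_self _))
  have r2 : ∀ g, ∀ᶠ a : I in 𝒰, Reg z (a.1.2.1 0) g := fun g => by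
    obtain ⟨F, G, d, hF, hG, h1, rfl⟩ := quot hz g
    exact (hT ⟨(1, G, d), p1, hG, h1⟩).mono fun a ha => ⟨F, G, d, hF, hG, ha.1, rfl⟩
  let W : I → K → WithTop ℤ := fun a g => od z a.1.2.1 a.1.2.2 g
  have Wm : ∀ g g', ∀ᶠ a in 𝒰, W a (g * g') = W a g + W a g' := fun g g' =>
    ((r2 g).and (r2 g')).mono fun a ha => a.2.1.od_mul hz a.2.2.1 ha.1 ha.2
  have Wa : ∀ a P, 0 ≤ W a (aeval u P) ∧ (W a (aeval u P) = 0 ↔
      vl z (aeval u P) (a.1.2.1 a.1.2.2) ≠ 0) := fun a P =>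
    a.2.1.od_reg hz a.2.2.1 (vl_aeval (o1 a) (r1 a) P).1
  have W1 : ∀ a, W a 1 = 0 := fun a => by
    simpa using (Wa a 1).2.2 (by rw [(vl_aeval (o1 a) (r1 a) 1).2]; simp)
  have Wi : ∀ g ≠ 0, ∀ᶠ a in 𝒰, ∃ b c : ℤ, W a g = b ∧ W a g⁻¹ = c ∧ b + c = 0 := fun g hg =>
    (Wm g g⁻¹).mono fun a ha => wt1 (by rw [← ha, mul_inv_cancel₀ hg, W1]; rfl)
  let V : ValuationSubring K :=
    { carrier := {g | ∀ᶠ a in 𝒰, 0 ≤ W a g}
      mul_mem' := fun {g g'} h h' => by
        filter_upwards [h, h', Wm g g'] with a h1 h2 h3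
        rw [h3]; exact add_nonneg h1 h2
      one_mem' := Eventually.of_forall fun a => (W1 a).ge
      add_mem' := fun {g g'} h h' => by
        filter_upwards [h, h', r2 g, r2 g'] with a h1 h2 h3 h4
        exact (le_min h1 h2).trans (a.2.1.od_add hz a.2.2.1 h3 h4)
      zero_mem' := Eventually.of_forall fun a => by simpa using (Wa a 0).1
      neg_mem' := fun {g} h => by
        filter_upwards [h, Wm (aeval u (-1 : MvPolynomial ι ℂ)) g] with a h1 h3
        have := add_nonneg (Wa a (-1)).1 h1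
        rw [← h3] at this
        simpa using this
      mem_or_inv_mem' := fun g => by
        by_cases g0 : g = 0
        · exact Or.inl (Eventually.of_forall fun a => by simpa [g0] using (Wa a 0).1)
        refine Ultrafilter.eventually_or.1 ((Wi g g0).mono ?_)
        rintro a ⟨b, c, h1, h2, h3⟩
        rw [h1, h2]
        norm_cast
        omega }
  have mV : ∀ g, g ∈ V ↔ ∀ᶠ a in 𝒰, 0 ≤ W a g := fun _ => Iff.rfl
  have v1 : ∀ g ≠ 0, V.valuation g < 1 ↔ ∀ᶠ a in 𝒰, 1 ≤ W a g := fun g hg => by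
    rw [← one_lt_inv₀ (by simpa [zero_lt_iff] using hg), ← map_inv₀, ← not_le,
      V.valuation_le_one_iff, mV, ← Ultrafilter.eventually_not]
    refine eventually_congr ((Wi g hg).mono ?_)
    rintro a ⟨b, c, h1, h2, h3⟩
    rw [h1, h2]
    norm_cast
    omega
  have v2 : ∀ g ≠ 0, (∀ᶠ a in 𝒰, W a g = 0) → V.valuation g = 1 := fun g hg h =>
    le_antisymm ((V.valuation_le_one_iff g).2 (h.mono fun a ha => ha.ge)) (not_lt.1 fun l => by
      obtain ⟨a, h1, h2⟩ := (h.and ((v1 g hg).1 l)).exists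
      rw [h1] at h2
      exact not_le.2 zero_lt_one h2)
  have n0 : ∀ g, (∃ a : I, W a g ≠ ⊤) → g ≠ 0 := by
    rintro _ ⟨a, ha⟩ rfl
    refine ha (meromorphicOrderAt_eq_top_iff.2 ?_)
    filter_upwards [mem_nhdsWithin_of_mem_nhds (isOpen_ball.mem_nhds a.2.2.1)] with s hs
    simpa using (vl_const (Cone.on hz (a.2.1.2 s hs)) 0).2
  have p0 : aeval u F ≠ 0 := n0 _ ⟨hne.some, by
    change od _ _ _ _ ≠ _
    rw [hne.some.2.2.2.1]; simp⟩
  refine (((mV γ).1 (hγ V ?_ (fun P => Eventually.of_forall fun a => (Wa a P).1)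
    (fun P hP => ?_) ((v1 _ p0).2 (Eventually.of_forall fun a => a.2.2.2.1.ge))
    fun g hg => ?_)).exists).elim fun a h1 => h1.not_gt a.2.2.2.2.1
  · obtain ⟨s, s1, s2⟩ := fin_forms hU
    obtain ⟨H, hH, h1⟩ := (Ultrafilter.eventually_exists_mem_iff s.finite_toSet (f := 𝒰)
      (P := fun H a => eval (a.1.2.1 a.1.2.2) H ≠ 0)).1 (Eventually.of_forall fun a => by
        obtain ⟨h, hy⟩ := a.2.1.2 _ a.2.2.1
        obtain ⟨H, h1, h2⟩ := s2 _ hy
        obtain ⟨d, hd⟩ := (s1 H h1).1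
        exact ⟨H, h1, (eval_mk hd h).not.1 h2⟩)
    obtain ⟨j, -, h2⟩ := (Ultrafilter.eventually_exists_mem_iff Set.finite_univ (f := 𝒰)
      (P := fun j a => a.1.2.1 a.1.2.2 j ≠ 0)).1 (Eventually.of_forall fun a => by
        obtain ⟨j, hj⟩ := Function.ne_iff.1 (a.2.1.2 _ a.2.2.1).1
        exact ⟨j, trivial, hj⟩)
    obtain ⟨d, hd⟩ := (s1 H hH).1
    obtain ⟨a, a1, a2⟩ := (h1.and h2).exists
    have j0 : z j ≠ 0 := fun e => a2 (by
      simpa using o1 a _ _ (isHomogeneous_X ℂ j) (by simpa using e))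
    refine ⟨H, d, j, hd, j0, fun i => h2.mono fun a ha => (a.2.1.od_reg hz a.2.2.1
      ⟨X i, X j, 1, isHomogeneous_X _ _, isHomogeneous_X _ _, by simpa, by simp⟩).1,
      v2 _ (div_ne_zero (fun e => a1 (o1 a _ _ hd e)) (pow_ne_zero _ j0))
        ((h1.and h2).mono fun a ha => ?_), (s1 H hH).2⟩
    have b1 : eval (a.1.2.1 a.1.2.2) (X j ^ d : PR n) ≠ 0 := by simp [ha.2]
    have b2 := vl_eq (o1 a) hd (isHomogeneous_X_pow j d) b1
    rw [map_pow, aeval_X] at b2
    refine (a.2.1.od_reg hz a.2.2.1 ⟨H, _, d, hd, isHomogeneous_X_pow j d, b1, by simp⟩).2.2 ?_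
    rw [b2]
    exact div_ne_zero ha.1 b1
  · have h := (hT ⟨(P, 1, 0), hP, isHomogeneous_one _ _, by simp⟩).mono
      fun a ha => (Wa a P).2.2 ha.2
    exact v2 _ (n0 _ (h.exists.imp fun a ha => by rw [ha]; simp)) h
  · by_cases g0 : g = 0
    · simp [g0]
    rw [← div_le_one₀ (by simpa [zero_lt_iff] using p0), ← map_div₀, V.valuation_le_one_iff, mV]
    filter_upwards [(v1 g g0).1 hg, Wm (g / aeval u F) (aeval u F), Wi g g0] with a h1 h2 h3
    obtain ⟨b, -, h3, -⟩ := h3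
    rw [div_mul_cancel₀ _ p0, h3] at h2
    obtain ⟨c, e, h4, h5, h6⟩ := wt1 h2.symm
    have h7 : W a (aeval u F) = 1 := a.2.2.2.1
    rw [h3] at h1
    rw [h5] at h7
    rw [h4]
    norm_cast at h1 h7 ⊢
    omega

/-- Division by the first variable. -/
lemma Arc_split {m : ℕ} (a : PR (m + 1)) :
    ∃ (H : PR m) (a' : PR (m + 1)), a = rename Fin.succ H + X 0 * a' := by
  induction a using MvPolynomial.induction_on with
  | C c => exact ⟨C c, 0, by simp⟩
  | add a b ha hb =>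
    obtain ⟨H, a', rfl⟩ := ha
    obtain ⟨G, b', rfl⟩ := hb
    exact ⟨H + G, a' + b', by rw [map_add]; ring⟩
  | mul_X a i ha =>
    obtain ⟨H, a', rfl⟩ := ha
    induction i using Fin.cases with
    | zero => exact ⟨0, rename Fin.succ H + X 0 * a', by rw [map_zero]; ring⟩
    | succ i => exact ⟨H * X i, a' * X i.succ, by rw [map_mul, rename_X]; ring⟩

/-- Derivations with integral values on generators have integral values on polynomials. -/
lemma Arc_der {K : Type} [Field K] [Algebra ℂ K] {ι : Type} {v : ι → K} {V : ValuationSubring K}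
    {E : Derivation ℂ K K} (h1 : ∀ P : MvPolynomial ι ℂ, aeval v P ∈ V) (h2 : ∀ i, E (v i) ∈ V)
    (P : MvPolynomial ι ℂ) : E (aeval v P) ∈ V := by
  induction P using MvPolynomial.induction_on with
  | C c => simp
  | add a b ha hb => rw [map_add, map_add]; exact add_mem ha hb
  | mul_X a i ha =>
    rw [map_mul, aeval_X, E.leibniz, smul_eq_mul, smul_eq_mul]
    exact add_mem (mul_mem (h1 a) (h2 i)) (mul_mem (by simpa using h1 (X i)) ha)

theorem sUnr : SUnr := by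
  intro n m K _ _ U z ι v p F y V E hz hm hy F0 h1 h2 h3 h4 h5
  let u : Fin (m + 1) → K := Fin.cons (aeval v F) (v ∘ y)
  let φ : Fin (m + 1) → MvPolynomial ι ℂ := Fin.cons F (X ∘ y)
  have e1 : ∀ a : PR (m + 1), aeval u a = aeval v (aeval φ a) := fun a => by
    rw [comp_aeval_apply]
    congr 2
    funext i
    induction i using Fin.cases with
    | zero => rfl
    | succ i => simp [u, φ]
  have u0 : aeval u (X 0 : PR (m + 1)) = aeval v F := by simp [u]
  have c1 : ∀ a : PR (m + 1), aeval u a ∈ V := fun a => e1 a ▸ h1 _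
  have c2 : ∀ a : PR (m + 1), ¬ X 0 ∣ a → V.valuation (aeval u a) = 1 := fun a ha => by
    obtain ⟨H, a', rfl⟩ := Arc_split a
    have H0 : H ≠ 0 := fun e => ha (by simp [e])
    have b1 : V.valuation (aeval u (rename Fin.succ H)) = 1 := by
      rw [← h2 (rename y H) fun e => H0 (hy H e), aeval_rename, aeval_rename]
      rfl
    have b2 : V.valuation (aeval u (X 0 * a')) < 1 := by
      rw [map_mul, map_mul, u0]
      exact mul_lt_one_of_lt_of_le h3 ((V.valuation_le_one_iff _).2 (c1 a'))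
    rw [map_add, V.valuation.map_add_eq_of_lt_left (b1 ▸ b2), b1]
  have hp : Prime (X 0 : PR (m + 1)) := X_prime
  have hi : AlgebraicIndependent ℂ u := by
    rw [algebraicIndependent_iff]
    intro a ha
    by_contra a0
    obtain ⟨e, b, b1, rfl⟩ := WfDvdMonoid.max_power_factor' a0 hp.not_isUnit
    rw [map_mul, map_pow, u0] at ha
    have := c2 b b1
    rw [(mul_eq_zero.1 ha).resolve_left (pow_ne_zero _ F0)] at this
    simp at this
  have hu : IsTranscendenceBasis ℂ u :=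
    hi.isTranscendenceBasis_of_trdeg_le_of_finite (by simp [hm])
  let _ : Algebra (PR (m + 1)) K := (aeval u : PR (m + 1) →ₐ[ℂ] K).toRingHom.toAlgebra
  have hA : ∀ a, algebraMap (PR (m + 1)) K a = aeval u a := fun _ => rfl
  have hinj : Function.Injective (algebraMap (PR (m + 1)) K) := hu.1
  let L := FractionRing (PR (m + 1))
  let _ : Algebra L K := (IsFractionRing.lift hinj : L →+* K).toAlgebra
  have hLK : ∀ a, algebraMap L K (algebraMap _ L a) = aeval u a := fun a =>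
    IsFractionRing.lift_algebraMap hinj a
  have _ : IsScalarTower (PR (m + 1)) L K := .of_algebraMap_eq fun a => (hLK a).symm
  have _ : IsScalarTower ℂ L K := .of_algebraMap_eq fun c => by
    rw [IsScalarTower.algebraMap_apply ℂ (PR (m + 1)) L, hLK]; simp
  have hal : ∀ g : K, IsAlgebraic (PR (m + 1)) g := fun g =>
    IsAlgebraic.of_ringHom_of_comp_eq hu.1.aevalEquiv.toAlgHom.toRingHom (RingHom.id K)
      (hu.isAlgebraic.isAlgebraic g) hu.1.aevalEquiv.surjective Function.injective_id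
      (RingHom.ext fun a => hu.1.algebraMap_aevalEquiv a)
  have hfd : FiniteDimensional L K := by
    have : Finite {u | ∃ i j, u = z i / z j} := Set.Finite.subset
      (Set.finite_range fun a : Fin n × Fin n => z a.1 / z a.2) fun _ ⟨i, j, e⟩ => ⟨(i, j), e.symm⟩
    have := IntermediateField.finiteDimensional_adjoin (S := {u | ∃ i j, u = z i / z j})
      fun g _ => ((IsFractionRing.isAlgebraic_iff (PR (m + 1)) L K).1 (hal g)).isIntegral
    rw [IntermediateField.adjoin_eq_top_of_adjoin_eq_top ℂ hz.2] at this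
    exact IntermediateField.topEquiv.toLinearEquiv.finiteDimensional
  have d1 : ∀ a : PR (m + 1), E (aeval u a) ∈ V := fun a => e1 a ▸ Arc_der h1 h5 _
  refine tame V L (R := PR (m + 1)) (fun a => hA a ▸ c1 a) (fun c => by simpa using h1 (C c)) E
    (fun a => hA a ▸ d1 a) (fun g => ?_) (hm_unram V E h3 (Arc_der h1 h5 F) h4)
  obtain ⟨P, p0, p1⟩ := hal g
  obtain ⟨e, Q, q1, rfl⟩ := WfDvdMonoid.max_power_factor' p0
    (x := Polynomial.C (X 0 : PR (m + 1))) (by rw [Polynomial.isUnit_C]; exact hp.not_isUnit)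
  rw [Polynomial.C_dvd_iff_dvd_coeff] at q1
  push Not at q1
  obtain ⟨i, hi⟩ := q1
  refine ⟨Q, ?_, i, by rw [hA]; exact c2 _ hi⟩
  rw [map_mul, map_pow, Polynomial.aeval_C, hA, u0] at p1
  exact (mul_eq_zero.1 p1).resolve_left (pow_ne_zero _ F0)

end Pool.Agent.MP_c69980_ag.H43
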