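import Pool.Agent.MP_c69980_ag.H43.Spec10

/-!
Row Grow: functions of polynomial growth are polynomials.
-/

set_option autoImplicit false

namespace Pool.Agent.MP_c69980_ag.H43

open Filter Topology Metric

theorem Grow_entire (N : ℕ) : ∀ (f : ℂ → ℂ) (C : ℝ), Differentiable ℂ f →
    (∀ s, ‖f s‖ ≤ C * (1 + ‖s‖) ^ N) → ∃ p : Polynomial ℂ, ∀ s, f s = p.eval s := by
  induction N with
  | zero =>
    intro f C hf h
    obtain ⟨c, hc⟩ := hf.exists_const_forall_eq_of_bounded
      (isBounded_iff_forall_norm_le.2 ⟨C, by
        rintro _ ⟨s, rfl⟩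
        simpa using h s⟩)
    exact ⟨Polynomial.C c, fun s => by rw [hc, Polynomial.eval_C]⟩
  | succ N ih =>
    intro f C hf h
    have hg : Differentiable ℂ (dslope f 0) := differentiableOn_univ.1
      ((Complex.differentiableOn_dslope univ_mem).2 hf.differentiableOn)
    obtain ⟨M, hM⟩ := (isCompact_closedBall (0 : ℂ) 1).exists_bound_of_continuousOn
      hg.continuous.continuousOn
    have he : ∀ s, f s = f 0 + s * dslope f 0 s := fun s => by
      have := sub_smul_dslope f 0 s
      rw [sub_zero, smul_eq_mul] at this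
      rw [this]
      ring
    have h0 : ‖f 0‖ ≤ C := by simpa using h 0
    have hC : 0 ≤ C := (norm_nonneg _).trans h0
    obtain ⟨p, hp⟩ := ih (dslope f 0) (max (4 * C) M) hg fun s => by
      have h1 : 1 ≤ (1 + ‖s‖) ^ N := one_le_pow₀ (by linarith [norm_nonneg s])
      rcases le_total ‖s‖ 1 with hs | hs
      · exact (hM s (mem_closedBall_zero_iff.2 hs)).trans ((le_max_right _ _).trans
          (le_mul_of_one_le_right (le_max_of_le_left (by linarith)) h1))
      · refine le_trans ?_ (mul_le_mul_of_nonneg_right (le_max_left _ _) (by linarith))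
        refine le_of_mul_le_mul_left ?_ (show 0 < ‖s‖ by linarith)
        have h2 : ‖s‖ * ‖dslope f 0 s‖ ≤ ‖f s‖ + ‖f 0‖ := by
          rw [← norm_mul, eq_sub_of_add_eq' (he s).symm]
          exact norm_sub_le _ _
        have h3 := h s
        rw [pow_succ] at h3
        have h4 := mul_le_mul_of_nonneg_left h1 hC
        nlinarith [mul_le_mul_of_nonneg_left hs (hC.trans (by linarith : C ≤ C * (1 + ‖s‖) ^ N))]
    exact ⟨Polynomial.C (f 0) + Polynomial.X * p, fun s => by rw [he s, hp]; simp⟩

theorem sGrow : SGrow := by
  classical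
  intro E
  induction E using Finset.induction_on with
  | empty =>
    intro c C N h1 h2
    obtain ⟨p, hp⟩ := Grow_entire N c C (fun s => (h1 s (by simp)).differentiableAt)
      fun s => h2 s (by simp)
    exact ⟨p, fun s _ => hp s⟩
  | insert e E he ih =>
    intro c C N h1 h2
    have hE : ∀ᶠ s in 𝓝[≠] e, s ∉ insert e E := by
      filter_upwards [self_mem_nhdsWithin,
        mem_nhdsWithin_of_mem_nhds (E.finite_toSet.isClosed.isOpen_compl.mem_nhds he)] with s h h'
      simpa using ⟨h, h'⟩
    have hb : Tendsto (fun s : ℂ => C * (1 + ‖s‖) ^ N) (𝓝[≠] e) (𝓝 (C * (1 + ‖e‖) ^ N)) :=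
      (Continuous.tendsto (by fun_prop) e).mono_left nhdsWithin_le_nhds
    have ht := Complex.tendsto_limUnder_of_differentiable_on_punctured_nhds_of_bounded_under
      (hE.mono fun s hs => (h1 s hs).differentiableAt)
      ((hb.add_const ‖c e‖).isBoundedUnder_le.mono_le (hE.mono fun s hs =>
        (norm_sub_le _ _).trans (add_le_add_left (h2 s hs) _)))
    generalize limUnder (𝓝[≠] e) c = v at ht
    have ha : ∀ s ∉ insert e E, AnalyticAt ℂ (Function.update c e v) s := fun s hs =>
      (h1 s hs).congr (by
        filter_upwards [isOpen_compl_singleton.mem_nhds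
          (show s ∈ ({e}ᶜ : Set ℂ) from fun h => hs (Finset.mem_insert.2 (Or.inl h)))] with z hz
        exact (Function.update_of_ne hz _ _).symm)
    obtain ⟨p, hp⟩ := ih (Function.update c e v) C N (fun s hs => by
      by_cases h : s = e
      · subst h
        exact Complex.analyticAt_of_differentiable_on_punctured_nhds_of_continuousAt
          (hE.mono fun z hz => (ha z hz).differentiableAt) (continuousAt_update_same.2 ht)
      · exact ha s (by simp [h, hs])) fun s hs => by
      by_cases h : s = e
      · subst h
        rw [Function.update_self]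
        exact le_of_tendsto_of_tendsto ht.norm hb (hE.mono h2)
      · rw [Function.update_of_ne h]
        exact h2 s (by simp [h, hs])
    refine ⟨p, fun s hs => ?_⟩
    rw [Finset.mem_insert, not_or] at hs
    rw [← hp s hs.2, Function.update_of_ne hs.1]

end Pool.Agent.MP_c69980_ag.H43
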