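import Pool.Agent.MP_c69980_ag.H43.Spec9

/-!
Row Span: independent generic points of divisors with independent conormal vectors.
-/

set_option autoImplicit false

namespace Pool.Agent.MP_c69980_ag.H43

open Finset

/-- A relation valid for all embeddings is valid for all linear forms. -/
theorem Span_tr {E k Ω ι : Type} [Field E] [Field k] [Field Ω] [Algebra E k] [Algebra E Ω]
    [IsAlgClosed Ω] [Algebra.IsSeparable E k] [Fintype ι] (n : ι → k) (c : ι → Ω)
    (h : ∀ σ : k →ₐ[E] Ω, ∑ l, c l * σ (n l) = 0) (ψ : k →ₗ[E] E) :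
    ∑ l, c l * algebraMap E Ω (ψ (n l)) = 0 := by
  let k' := IntermediateField.adjoin E (Set.range n)
  have : FiniteDimensional E k' :=
    IntermediateField.finiteDimensional_adjoin fun x _ => Algebra.IsSeparable.isIntegral E x
  let n' : ι → k' := fun l => ⟨n l, IntermediateField.subset_adjoin _ _ ⟨l, rfl⟩⟩
  let x := ((Algebra.traceForm E k').toDual (traceForm_nondegenerate E k')).symm
    (ψ.comp k'.val.toLinearMap)
  have hx : ∀ l, ψ (n l) = Algebra.trace E k' (x * n' l) := fun l =>
    (LinearMap.BilinForm.apply_toDual_symm_apply (hB := traceForm_nondegenerate E k')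
      (ψ.comp k'.val.toLinearMap) (n' l)).symm
  simp_rw [hx, trace_eq_sum_embeddings Ω, Finset.mul_sum]
  rw [Finset.sum_comm]
  refine Finset.sum_eq_zero fun σ _ => ?_
  obtain ⟨τ, hτ⟩ := IsAlgClosed.surjective_domRestrict_of_isAlgebraic (E := k) σ
  have h1 : ∀ l, σ (n' l) = τ (n l) := fun l => by rw [← hτ]; rfl
  have h2 : ∑ l, c l * σ (x * n' l) = σ x * ∑ l, c l * τ (n l) := by
    rw [Finset.mul_sum]
    exact Finset.sum_congr rfl fun l _ => by rw [map_mul, h1]; ring
  rw [h2, h, mul_zero]

/-- Linear disjointness of `L` and of the rational functions in variables independent over `L`. -/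
theorem Span_ld {F L Ω ι κ : Type} [Field F] [Field L] [Field Ω] [Algebra F L] [Algebra L Ω]
    [Algebra F Ω] [IsScalarTower F L Ω] [Fintype ι] {Y : κ → Ω} (hY : AlgebraicIndependent L Y)
    (j : FractionRing (MvPolynomial κ F) →ₐ[F] Ω)
    (hj : ∀ P : MvPolynomial κ F, j (algebraMap _ _ P) = MvPolynomial.aeval Y P)
    (u : ι → FractionRing (MvPolynomial κ F)) (c : ι → L)
    (h : ∑ l, algebraMap L Ω (c l) * j (u l) = 0) (φ : L →ₗ[F] F) :
    ∑ l, algebraMap F _ (φ (c l)) * u l = 0 := by
  obtain ⟨Q, hQ⟩ := IsLocalization.exist_integer_multiples_of_finite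
    (nonZeroDivisors (MvPolynomial κ F)) u
  choose P hP using hQ
  have h1 : MvPolynomial.aeval Y (∑ l, MvPolynomial.C (c l) * (P l).map (algebraMap F L)) = 0 := by
    rw [map_sum]
    have : ∀ l, MvPolynomial.aeval Y (MvPolynomial.C (c l) * (P l).map (algebraMap F L)) =
        j (algebraMap _ _ (Q : MvPolynomial κ F)) * (algebraMap L Ω (c l) * j (u l)) := fun l => by
      rw [map_mul, MvPolynomial.aeval_C, MvPolynomial.aeval_map_algebraMap, ← hj, hP,
        Algebra.smul_def, map_mul]
      ring
    simp_rw [this]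
    rw [← Finset.mul_sum, h, mul_zero]
  have h2 := hY.eq_zero_of_aeval_eq_zero _ h1
  have h3 : ∑ l, φ (c l) • P l = 0 := by
    ext m
    have h4 := congrArg (fun p => φ (MvPolynomial.coeff m p)) h2
    simp only [MvPolynomial.coeff_sum, MvPolynomial.coeff_C_mul, MvPolynomial.coeff_map, map_sum,
      MvPolynomial.coeff_zero, map_zero] at h4
    simp only [MvPolynomial.coeff_sum, MvPolynomial.coeff_smul, MvPolynomial.coeff_zero]
    rw [← h4]
    refine Finset.sum_congr rfl fun l _ => ?_
    rw [mul_comm (c l), ← Algebra.smul_def, map_smul, smul_eq_mul, smul_eq_mul, mul_comm]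
  have h5 : algebraMap _ (FractionRing (MvPolynomial κ F)) (Q : MvPolynomial κ F) *
      ∑ l, algebraMap F _ (φ (c l)) * u l = 0 := by
    have h6 := congrArg (IsScalarTower.toAlgHom F _ (FractionRing (MvPolynomial κ F))) h3
    rw [map_sum, map_zero] at h6
    rw [← h6, Finset.mul_sum]
    refine Finset.sum_congr rfl fun l _ => ?_
    rw [Algebra.smul_def, map_mul, AlgHom.commutes, IsScalarTower.coe_toAlgHom', hP,
      Algebra.smul_def Q.1, mul_left_comm]
  exact (mul_eq_zero.1 h5).resolve_left (IsFractionRing.to_map_ne_zero_of_mem_nonZeroDivisors Q.2)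

/-- A relation over `L` valid at all generic points descends to `F`. -/
theorem Span_one {F L Ω k ι κ : Type} [Field F] [CharZero F] [Field L] [Field Ω] [Field k]
    [Algebra F L] [Algebra L Ω] [Algebra F Ω] [IsScalarTower F L Ω] [IsAlgClosed Ω] [Algebra F k]
    [Fintype ι] {Y : κ → Ω} (hY : AlgebraicIndependent L Y) {y : κ → k}
    (hy : IsTranscendenceBasis F y) (n : ι → k) (c : ι → L)
    (h : ∀ σ : k →ₐ[F] Ω, (∀ a, σ (y a) = Y a) → ∑ l, algebraMap L Ω (c l) * σ (n l) = 0)
    (φ : L →ₗ[F] F) : ∑ l, φ (c l) • n l = 0 := by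
  have hYF : AlgebraicIndependent F Y := hY.restrictScalars (algebraMap F L).injective
  let E := IntermediateField.adjoin F (Set.range y)
  let e : FractionRing (MvPolynomial κ F) ≃ₐ[F] E := hy.1.aevalEquivField
  let j : FractionRing (MvPolynomial κ F) →ₐ[F] Ω :=
    IsFractionRing.liftAlgHom (algebraicIndependent_iff_injective_aeval.2 hYF)
  have hj : ∀ P : MvPolynomial κ F, j (algebraMap _ _ P) = MvPolynomial.aeval Y P := fun P => by
    simp [j]
  let _ : Algebra E Ω := (j.comp e.symm.toAlgHom).toRingHom.toAlgebra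
  have _ : IsScalarTower F E Ω := .of_algebraMap_eq fun a =>
    ((j.comp e.symm.toAlgHom).commutes a).symm
  have _ : Algebra.IsAlgebraic E k := hy.isAlgebraic_field
  have _ : CharZero E := algebraRat.charZero _
  refine (Module.forall_dual_apply_eq_zero_iff E _).1 fun ψ => ?_
  have h1 := Span_tr (E := E) n (fun l => algebraMap L Ω (c l)) (fun σ => by
    refine h (σ.restrictScalars F) fun a => ?_
    have h2 : y a = algebraMap E k (e (algebraMap _ _ (MvPolynomial.X a : MvPolynomial κ F))) := by
      change _ = (hy.1.aevalEquivField _ : k)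
      rw [hy.1.aevalEquivField_algebraMap_apply_coe, MvPolynomial.aeval_X]
    rw [AlgHom.restrictScalars_apply, h2, σ.commutes]
    change j (e.symm (e _)) = _
    rw [e.symm_apply_apply, hj, MvPolynomial.aeval_X]) ψ
  have h3 := congrArg e (Span_ld hY j hj (fun l => e.symm (ψ (n l))) c h1 φ)
  rw [map_sum, map_zero] at h3
  rw [map_sum, ← h3]
  refine Finset.sum_congr rfl fun l _ => ?_
  rw [LinearMap.map_smul_of_tower, map_mul, e.apply_symm_apply, e.commutes, Algebra.smul_def]

theorem Span_orth {L : Type} [Field L] {m s : ℕ} (h : m < s) (v : Fin m → Fin s → L) :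
    ∃ c : Fin s → L, c ≠ 0 ∧ ∀ j, ∑ l, c l * v j l = 0 := by
  have h1 : LinearMap.ker (Matrix.of v).mulVecLin ≠ ⊥ :=
    LinearMap.ker_ne_bot_of_finrank_lt (by simpa using h)
  obtain ⟨c, hc, hc0⟩ := Submodule.exists_mem_ne_zero_of_ne_bot h1
  refine ⟨c, hc0, fun j => ?_⟩
  have h2 := congrFun (LinearMap.mem_ker.1 hc) j
  simp only [Matrix.mulVecLin_apply, Matrix.mulVec, dotProduct, Matrix.of_apply,
    Pi.zero_apply] at h2
  rw [← h2]
  exact Finset.sum_congr rfl fun l _ => mul_comm _ _

theorem Span_ext (L : Type) [Field L] (r : ℕ) : ∃ (Ω : Type) (_ : Field Ω) (_ : Algebra L Ω)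
    (_ : IsAlgClosed Ω) (Y : Fin r → Ω), AlgebraicIndependent L Y :=
  ⟨AlgebraicClosure (FractionRing (MvPolynomial (Fin r) L)), inferInstance, inferInstance,
    inferInstance, _, (MvPolynomial.algebraicIndependent_X (Fin r) L).map'
      (f := IsScalarTower.toAlgHom L (MvPolynomial (Fin r) L) _)
      ((algebraMap (FractionRing (MvPolynomial (Fin r) L)) _).injective.comp
        (IsFractionRing.injective (MvPolynomial (Fin r) L) _))⟩

theorem Span_inj (m r : ℕ) : Function.Injective fun q : Fin (m + 1) × Fin r =>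
    (Fin.cases (Sum.inl q.2) (fun j => Sum.inr (j, q.2)) q.1 : Fin r ⊕ Fin m × Fin r) := by
  rintro ⟨a, b⟩ ⟨a', b'⟩ hh
  induction a using Fin.cases <;> induction a' using Fin.cases <;> simp_all

/-- The inductive choice of the points. -/
theorem Span_ind {F K I : Type} [Field F] [CharZero F] [Field K] [Algebra F K] (k : I → Type)
    [∀ i, Field (k i)] [∀ i, Algebra F (k i)] {r s : ℕ} (y : ∀ i, Fin r → k i)
    (n : ∀ i, Fin s → k i) (hy : ∀ i, IsTranscendenceBasis F (y i))
    (hn : ∀ c : Fin s → F, (∀ i, ∑ l, c l • n i l = 0) → c = 0) (m : ℕ) (hm : m ≤ s) :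
    ∃ (Ω : Type) (_ : Field Ω) (_ : Algebra K Ω) (_ : Algebra F Ω) (_ : IsScalarTower F K Ω)
      (p : Fin m → Σ i, k i →ₐ[F] Ω),
      AlgebraicIndependent K (fun q : Fin m × Fin r => (p q.1).2 (y _ q.2)) ∧
      LinearIndependent Ω fun j l => (p j).2 (n _ l) := by
  induction m with
  | zero =>
    refine ⟨K, inferInstance, inferInstance, inferInstance, inferInstance, Fin.elim0, ?_,
      linearIndependent_empty_type⟩
    exact (algebraicIndependent_empty_type_iff).2 (algebraMap K K).injective
  | succ m ih =>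
    obtain ⟨L, _, _, _, _, p, hp, hl⟩ := ih (by omega)
    obtain ⟨Ω, _, _, _, Y, hY⟩ := Span_ext L r
    let _ : Algebra K Ω := ((algebraMap L Ω).comp (algebraMap K L)).toAlgebra
    let _ : Algebra F Ω := ((algebraMap L Ω).comp (algebraMap F L)).toAlgebra
    have _ : IsScalarTower K L Ω := .of_algebraMap_eq fun _ => rfl
    have _ : IsScalarTower F L Ω := .of_algebraMap_eq fun _ => rfl
    have _ : IsScalarTower F K Ω := .of_algebraMap_eq fun a =>
      congrArg (algebraMap L Ω) (IsScalarTower.algebraMap_apply F K L a)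
    obtain ⟨c, hc0, hc⟩ := Span_orth (show m < s by omega) fun j l => (p j).2 (n _ l)
    obtain ⟨i, σ, hσ, hne⟩ : ∃ (i : I) (σ : k i →ₐ[F] Ω), (∀ a, σ (y i a) = Y a) ∧
        ∑ l, algebraMap L Ω (c l) * σ (n i l) ≠ 0 := by
      by_contra! hcon
      refine hc0 (funext fun l => (Module.forall_dual_apply_eq_zero_iff F _).1 fun φ => ?_)
      exact congrFun (hn (fun l => φ (c l)) fun i =>
        Span_one hY (hy i) (n i) c (hcon i) φ) l
    let p' : Fin m → Σ i, k i →ₐ[F] Ω := fun j =>
      ⟨(p j).1, (IsScalarTower.toAlgHom F L Ω).comp (p j).2⟩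
    refine ⟨Ω, inferInstance, inferInstance, inferInstance, inferInstance,
      Fin.cons ⟨i, σ⟩ p', ?_, ?_⟩
    · have h1 := AlgebraicIndependent.sumElim_comp hp hY
      convert h1.comp _ (Span_inj m r) using 1
      funext ⟨a, b⟩
      induction a using Fin.cases
      · exact hσ b
      · rfl
    · have h1 : LinearIndependent Ω fun j => algebraMap L Ω ∘ fun l => (p j).2 (n _ l) :=
        linearIndependent_algebraMap_comp_iff.2 hl
      have h2 : (fun l => σ (n i l)) ∉ Submodule.span Ω
          (Set.range fun j => algebraMap L Ω ∘ fun l => (p j).2 (n _ l)) := fun hmem => by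
        refine hne ?_
        refine Submodule.span_induction
          (p := fun v _ => ∑ l, algebraMap L Ω (c l) * v l = 0) ?_ ?_ ?_ ?_ hmem
        · rintro _ ⟨j, rfl⟩
          have h3 := congrArg (algebraMap L Ω) (hc j)
          rw [map_sum, map_zero] at h3
          simpa only [map_mul, Function.comp_apply] using h3
        · simp
        · intro v w _ _ hv hw
          simp only [Pi.add_apply, mul_add, Finset.sum_add_distrib, hv, hw, add_zero]
        · intro a v _ hv
          simp only [Pi.smul_apply, smul_eq_mul, mul_left_comm _ a, ← Finset.mul_sum, hv, mul_zero]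
      have h3 := h1.finCons h2
      refine (congrArg (fun v : Fin (m + 1) → Fin s → Ω => LinearIndependent Ω v) ?_).mp h3
      funext a
      induction a using Fin.cases <;> rfl

theorem sSpan : SSpan := by
  intro K _ _ F r f I V y N hf hF hy hN hind halg hc
  let k : I → Type := fun i => IsLocalRing.ResidueField (V i)
  let _ : ∀ i, Algebra F (V i) := fun i =>
    (F.val.toRingHom.codRestrict (V i) fun x => hF i x x.2).toAlgebra
  let ρ : ∀ i, V i →ₐ[F] k i := fun i => IsScalarTower.toAlgHom F (V i) (k i)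
  let ι : ∀ i, V i →ₐ[F] K := fun i => { (V i).subtype with commutes' := fun _ => rfl }
  have hρ : ∀ i (x : V i), ρ i x = 0 ↔ (V i).valuation (x : K) < 1 := fun i x =>
    (IsLocalRing.residue_eq_zero_iff x).trans ((V i).valuation_lt_one_iff x)
  have hev : ∀ i (κ : Type) (z : κ → V i) (P : MvPolynomial κ F),
      MvPolynomial.aeval (fun a => ρ i (z a)) P = 0 ↔
        (V i).valuation (MvPolynomial.aeval (fun a => (z a : K)) P) < 1 := fun i κ z P => by
    have h1 : MvPolynomial.aeval (fun a => ρ i (z a)) P = ρ i (MvPolynomial.aeval z P) :=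
      (MvPolynomial.comp_aeval_apply z (ρ i) P).symm
    have h2 : MvPolynomial.aeval (fun a => (z a : K)) P = ι i (MvPolynomial.aeval z P) :=
      (MvPolynomial.comp_aeval_apply z (ι i) P).symm
    rw [h1, h2, hρ]
    rfl
  have _ : CharZero F := algebraRat.charZero _
  have hb : ∀ i, IsTranscendenceBasis F fun a => ρ i ⟨y i a, hy i a⟩ := fun i => by
    have h1 : AlgebraicIndependent F fun a => ρ i ⟨y i a, hy i a⟩ := by
      rw [algebraicIndependent_iff]
      intro P hP
      by_contra hP0
      have h2 := (hev i _ _ P).1 hP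
      exact absurd (hind i P hP0) h2.ne
    refine h1.isTranscendenceBasis_iff_isAlgebraic.2 ⟨fun x => ?_⟩
    obtain ⟨x, rfl⟩ := IsLocalRing.residue_surjective x
    by_contra hx
    have h2 := (h1.option_iff_transcendental _).2 hx
    obtain ⟨P, hP0, hP⟩ := halg i x x.2
    refine hP0 (h2.eq_zero_of_aeval_eq_zero P ?_)
    let z : Option (Fin r) → V i := fun o => o.elim x fun a => ⟨y i a, hy i a⟩
    have h3 : (fun o => (z o : K)) = fun o : Option (Fin r) => o.elim (x : K) (y i) := by
      funext o
      cases o <;> rfl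
    have h4 : (fun o : Option (Fin r) => o.elim (IsLocalRing.residue (V i) x)
        fun a => ρ i ⟨y i a, hy i a⟩) = fun o => ρ i (z o) := by
      funext o
      cases o <;> rfl
    rw [h4, hev, h3]
    exact hP
  obtain ⟨Ω, _, _, _, _, p, hp, hl⟩ := Span_ind (F := F) (K := K) k
    (fun i a => ρ i ⟨y i a, hy i a⟩) (fun i l => ρ i ⟨N i l, hN i l⟩) hb (fun c h => by
      have h1 := hc (fun l => c l) (fun l => (c l).2) fun i => by
        have h2 : ρ i (∑ l, c l • (⟨N i l, hN i l⟩ : V i)) = 0 := by
          rw [map_sum, ← h i]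
          exact Finset.sum_congr rfl fun l _ => map_smul _ _ _
        rw [hρ] at h2
        convert h2 using 2
        change _ = ι i _
        rw [map_sum]
        exact Finset.sum_congr rfl fun l _ => rfl
      funext l
      exact Subtype.ext (congrFun h1 l)) (r + 1) le_rfl
  let _ : Algebra ℂ Ω := ((algebraMap K Ω).comp (algebraMap ℂ K)).toAlgebra
  have _ : IsScalarTower ℂ K Ω := .of_algebraMap_eq fun _ => rfl
  let τ : ∀ j, V (p j).1 →+* Ω := fun j => ((p j).2.comp (ρ _)).toRingHom
  have hτ : ∀ j x (h : x ∈ V (p j).1), tot (τ j) x = (p j).2 (ρ _ ⟨x, h⟩) := fun j x h =>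
    dif_pos h
  refine ⟨Ω, inferInstance, inferInstance, fun j => (p j).1, IsScalarTower.toAlgHom ℂ K Ω, τ,
    fun j x => ?_, fun j x hx => ?_, ?_, ?_⟩
  · exact (map_eq_zero (p j).2).trans (hρ _ x)
  · rw [hτ j x (hF _ x hx)]
    exact (((p j).2.comp (ρ _)).commutes ⟨x, hx⟩).trans
      (IsScalarTower.algebraMap_apply F K Ω ⟨x, hx⟩)
  · have h1 := (AlgebraicIndependent.sumElim_comp hf.1 hp).comp _ Sum.swap_leftInverse.injective
    have h2 := h1.ringHom_of_comp_eq (S := F.map (IsScalarTower.toAlgHom ℂ K Ω))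
      (F.equivMap (IsScalarTower.toAlgHom ℂ K Ω)) (RingHom.id Ω) (AlgEquiv.surjective _)
      Function.injective_id
      (RingHom.ext fun a => (IsScalarTower.algebraMap_apply F K Ω a).symm)
    convert h2 using 1
    funext q
    rcases q with l | q
    · rfl
    · exact hτ _ _ (hy _ _)
  · have h1 : (Matrix.of fun j l => tot (τ j) (N (p j).1 l)) =
        Matrix.of fun j l => (p j).2 (ρ _ ⟨N _ l, hN _ l⟩) := by
      ext j l
      exact hτ _ _ (hN _ _)
    change (Matrix.of fun j l => tot (τ j) (N (p j).1 l)).det ≠ 0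
    rw [h1]
    exact ((Matrix.isUnit_iff_isUnit_det _).1
      (Matrix.linearIndependent_rows_iff_isUnit.1 hl)).ne_zero

end Pool.Agent.MP_c69980_ag.H43
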